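import Mathlib
import Pool.Agent.H.MP_53fefd_al.C

namespace Pool.Agent.Results.MP_53fefd_al.Q1

open Monoid

def Marked (n : ℕ) : Type := {N : Subgroup (FreeGroup (Fin n)) // N.Normal}

instance (n : ℕ) (N : Marked n) : N.1.Normal := N.2

open Classical in
noncomputable instance (n : ℕ) : TopologicalSpace (Marked n) :=
  .induced (fun N (w : FreeGroup (Fin n)) => decide (w ∈ N.1)) inferInstance

variable {G ι : Type} [Group G]

abbrev F (m : ℕ) (H : ι → Subgroup G) : Type := Coprod (FreeGroup (Fin m)) (CoprodI fun i => H i)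

def ev {m : ℕ} (x : Fin m → G) (H : ι → Subgroup G) : F m H →* G :=
  Coprod.lift (FreeGroup.lift x) (CoprodI.lift fun i => (H i).subtype)

def Letter {m : ℕ} {H : ι → Subgroup G} (s : F m H) : Prop :=
  (∃ x, s = .inl (.of x) ∨ s = (Coprod.inl (.of x))⁻¹) ∨ ∃ i h, s = .inr (.of (i := i) h)

def RelHyp (H : ι → Subgroup G) : Prop :=
  ∃ (m : ℕ) (x : Fin m → G) (R : Finset (F m H)) (C : ℕ), Function.Surjective (ev x H) ∧ (∀ r ∈ R, ev x H r = 1) ∧
    ∀ W : List (F m H), (∀ s ∈ W, Letter s) → ev x H W.prod = 1 → ∃ L : List (F m H), L.length ≤ C * (W.length + 1) ∧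
      (∀ c ∈ L, ∃ f, ∃ r ∈ R, c = f * r * f⁻¹ ∨ c = f * r⁻¹ * f⁻¹) ∧ L.prod = W.prod

def VirtCyclic (G : Type) [Group G] : Prop := ∃ C : Subgroup G, IsCyclic C ∧ C.FiniteIndex

def NonElemRelHyp (G : Type) [Group G] : Prop :=
  ¬ VirtCyclic G ∧ ∃ (k : ℕ) (H : Fin k → Subgroup G), (∀ i, H i ≠ ⊤) ∧ RelHyp H

open Classical in
theorem clopen (n : ℕ) (w : FreeGroup (Fin n)) : IsClopen {N : Marked n | w ∈ N.1} := by
  simpa [Set.preimage] using (isClopen_discrete {true}).preimage ((continuous_apply w).comp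
    (continuous_induced_dom (f := fun (N : Marked n) (w : FreeGroup (Fin n)) => decide (w ∈ N.1))))

theorem result (n : ℕ) : @MeasurableSet (Marked n) (borel _) {N | NonElemRelHyp (FreeGroup (Fin n) ⧸ N.1)} := by
  borelize (Marked n)
  have h := fun w => measurableSet_setOfPred.1 (clopen n w).2.measurableSet
  exact measurableSet_setOfPred.2 ((Pool.Agent.H.MP_53fefd_al.vc_meas (fun N : Marked n => N.1) h).not.and
    (Pool.Agent.H.MP_53fefd_al.rh_meas (fun N : Marked n => N.1) h))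

end Pool.Agent.Results.MP_53fefd_al.Q1
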