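import Mathlib
import Pool.Agent.H.MP_53fefd_al.C

namespace Pool.Agent.Results.MP_53fefd_al.Q2

def Marked (n : ℕ) : Type := {N : Subgroup (FreeGroup (Fin n)) // N.Normal}

instance (n : ℕ) (N : Marked n) : N.1.Normal := N.2

open Classical in
noncomputable instance (n : ℕ) : TopologicalSpace (Marked n) :=
  .induced (fun N (w : FreeGroup (Fin n)) => decide (w ∈ N.1)) inferInstance

def Geodesic (S : Type) [MetricSpace S] : Prop :=
  ∀ x y : S, ∃ γ : ℝ → S, γ 0 = x ∧ γ 1 = y ∧ ∀ s ∈ Set.Icc (0 : ℝ) 1, ∀ t ∈ Set.Icc (0 : ℝ) 1, dist (γ s) (γ t) = |s - t| * dist x y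

def Hyperbolic (S : Type) [MetricSpace S] : Prop :=
  Geodesic S ∧ ∃ δ : ℝ, ∀ x y z w : S, dist x y + dist z w ≤ max (dist x z + dist y w) (dist x w + dist y z) + 2 * δ

def Acylindrical (G S : Type) [Group G] [MetricSpace S] [MulAction G S] : Prop :=
  ∀ ε > 0, ∃ R > 0, ∃ N : ℕ, ∀ x y : S, R ≤ dist x y → {g : G | dist x (g • x) ≤ ε ∧ dist y (g • y) ≤ ε}.encard ≤ N

def VirtCyclic (G : Type) [Group G] : Prop := ∃ C : Subgroup G, IsCyclic C ∧ C.FiniteIndex

def AcylHyp (G : Type) [Group G] : Prop :=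
  ¬ VirtCyclic G ∧ ∃ (S : Type) (_ : MetricSpace S) (_ : MulAction G S), IsIsometricSMul G S ∧ Hyperbolic S ∧ Acylindrical G S ∧
    ∃ x : S, ¬ Bornology.IsBounded (MulAction.orbit G x)

open Classical in
theorem clopen (n : ℕ) (w : FreeGroup (Fin n)) : IsClopen {N : Marked n | w ∈ N.1} := by
  simpa [Set.preimage] using (isClopen_discrete {true}).preimage ((continuous_apply w).comp
    (continuous_induced_dom (f := fun (N : Marked n) (w : FreeGroup (Fin n)) => decide (w ∈ N.1))))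

theorem result (n : ℕ) : @MeasurableSet (Marked n) (borel _) {N | AcylHyp (FreeGroup (Fin n) ⧸ N.1)} := by
  borelize (Marked n)
  exact (measurableSet_setOfPred.2 (Pool.Agent.H.MP_53fefd_al.vc_meas (fun N : Marked n => N.1)
    fun w => measurableSet_setOfPred.1 (clopen n w).2.measurableSet).not).inter (Pool.Agent.H.MP_53fefd_al.act_borel _ (clopen n))

end Pool.Agent.Results.MP_53fefd_al.Q2
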